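import Pool.Agent.Helper30.KC.GoalsI

/-!
# Project KI, packet CB: case B
-/

set_option autoImplicit false

namespace Pool.Agent.Helper14.KI

open Pool.Agent.Helper94.KC Pool.Agent.Helper30.KC

theorem pCB (hAR : StmtAR) : StmtCB := by
  intro V _ T ρ h hT x₀ w hw x hx hd D hD t ht hxt
  obtain ⟨y, w', hc, hlen, hs, hdisc⟩ := hD
  have hcomm : (sk T).dist x h = (sk T).dist h x := SimpleGraph.dist_comm
  have hxs : x ∉ w'.support := by
    intro hxs
    have h1 := hs x hxs
    omega
  obtain ⟨p, hp, h2⟩ := hAR V T hT x₀ w hw x hx D y w' hc hdisc ⟨t, ht, hxt⟩ hxs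
  have h3 := hs p hp
  have h4 : (sk T).dist x h ≤ (sk T).dist x p + (sk T).dist p h :=
    hT.conn.dist_triangle
  have h5 : (sk T).dist p h = (sk T).dist h p := SimpleGraph.dist_comm
  omega

end Pool.Agent.Helper14.KI
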